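import Pool.Agent.Helper21.LQ.Defs

set_option autoImplicit false

/-!
# LQ, module BIL: one step of a star, bilinear statistic with conflicting pairs
-/

namespace Pool.Agent.Helper21.LQ

open Finset

section
variable {R Γ : Type} [Fintype R] [DecidableEq R] [Fintype Γ] [DecidableEq Γ]

/-- Indicator of the event that the cell `c` is used. -/
noncomputable def bil_I (f : R → Option Γ) (c : R × Γ) : ℝ := if f c.1 = some c.2 then 1 else 0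

theorem bil_I_nonneg (f : R → Option Γ) (c : R × Γ) : 0 ≤ bil_I f c := by
  unfold bil_I
  split_ifs <;> norm_num

theorem bil_E {p : (R → Option Γ) → ℝ} {y : R → Γ → ℝ} (h : Marg p y) (c : R × Γ) :
    ∑ f, p f * bil_I f c = y c.1 c.2 := by
  rw [← h c.1 c.2]
  refine sum_congr rfl fun f _ => ?_
  unfold bil_I
  split_ifs <;> ring

theorem bil_post (X y : R → Γ → ℝ) (f : R → Option Γ) (c : R × Γ) (hy : y c.1 c.2 ≤ 1 / 2) :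
    post X y f c.1 c.2 - X c.1 c.2 =
      X c.1 c.2 / (1 - y c.1 c.2) * (y c.1 c.2 - bil_I f c) := by
  have h1 : (1 : ℝ) - y c.1 c.2 ≠ 0 := by linarith
  unfold post bil_I
  split_ifs with h
  · field_simp
    ring
  · field_simp
    ring

theorem bil_a {x y Xm : ℝ} (hx : 0 ≤ x) (hx' : x ≤ Xm) (hy : y ≤ 1 / 2) :
    0 ≤ x / (1 - y) ∧ x / (1 - y) ≤ 2 * Xm := by
  have h1 : (0 : ℝ) < 1 - y := by linarith
  refine ⟨div_nonneg hx h1.le, ?_⟩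
  rw [div_le_iff₀ h1]
  have h2 : 0 ≤ Xm := hx.trans hx'
  nlinarith

end

theorem st_BIL (hE : ST_EXPM) : ST_BIL := by
  intro R Γ Q _ _ _ _ _ X y p c₁ c₂ κ Xm lam hX hXm hκ0 hκ1 hy hp hm hconf hone1 hone2 hlam
  classical
  set Y₁ : Q → ℝ := fun q => y (c₁ q).1 (c₁ q).2 with hY₁
  set Y₂ : Q → ℝ := fun q => y (c₂ q).1 (c₂ q).2 with hY₂
  set X₁ : Q → ℝ := fun q => X (c₁ q).1 (c₁ q).2 with hX₁
  set X₂ : Q → ℝ := fun q => X (c₂ q).1 (c₂ q).2 with hX₂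
  set a₁ : Q → ℝ := fun q => X₁ q / (1 - Y₁ q) with ha₁
  set a₂ : Q → ℝ := fun q => X₂ q / (1 - Y₂ q) with ha₂
  have hY₁0 : ∀ q, 0 ≤ Y₁ q := fun q => (hy _ _).1
  have hY₂0 : ∀ q, 0 ≤ Y₂ q := fun q => (hy _ _).1
  have hY₁h : ∀ q, Y₁ q ≤ 1 / 2 := fun q => (hy _ _).2
  have hY₂h : ∀ q, Y₂ q ≤ 1 / 2 := fun q => (hy _ _).2
  have hA₁ : ∀ q, 0 ≤ a₁ q ∧ a₁ q ≤ 2 * Xm := fun q => bil_a (hX _ _).1 (hX _ _).2 (hY₁h q)
  have hA₂ : ∀ q, 0 ≤ a₂ q ∧ a₂ q ≤ 2 * Xm := fun q => bil_a (hX _ _).1 (hX _ _).2 (hY₂h q)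
  have hsum : ∑ f, p f = 1 := hp.2
  have hEI₁ : ∀ q, ∑ f, p f * bil_I f (c₁ q) = Y₁ q := fun q => bil_E hm (c₁ q)
  have hEI₂ : ∀ q, ∑ f, p f * bil_I f (c₂ q) = Y₂ q := fun q => bil_E hm (c₂ q)
  have hEI₁₂ : ∀ q f, p f * (bil_I f (c₁ q) * bil_I f (c₂ q)) = 0 := by
    intro q f
    by_cases h : p f = 0
    · rw [h, zero_mul]
    · have h1 := hconf f h q
      have h2 : bil_I f (c₁ q) * bil_I f (c₂ q) = 0 := by
        unfold bil_I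
        by_cases h3 : f (c₁ q).1 = some (c₁ q).2
        · have h4 : ¬ f (c₂ q).1 = some (c₂ q).2 := fun h5 => h1 ⟨h3, h5⟩
          rw [if_neg h4, mul_zero]
        · rw [if_neg h3, zero_mul]
      rw [h2, mul_zero]
  -- the increment
  set T : Q → (R → Option Γ) → ℝ := fun q f =>
    (X₂ q - κ) * (a₁ q * (Y₁ q - bil_I f (c₁ q))) +
      (X₁ q - κ) * (a₂ q * (Y₂ q - bil_I f (c₂ q))) +
      a₁ q * (Y₁ q - bil_I f (c₁ q)) * (a₂ q * (Y₂ q - bil_I f (c₂ q))) with hT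
  have hZ : ∀ f, bil c₁ c₂ κ (post X y f) - bil c₁ c₂ κ X = ∑ q, T q f := by
    intro f
    unfold bil
    rw [← sum_sub_distrib]
    refine sum_congr rfl fun q _ => ?_
    have h1 := bil_post X y f (c₁ q) (hY₁h q)
    have h2 := bil_post X y f (c₂ q) (hY₂h q)
    have h1' : post X y f (c₁ q).1 (c₁ q).2 = X₁ q + a₁ q * (Y₁ q - bil_I f (c₁ q)) := by
      linarith
    have h2' : post X y f (c₂ q).1 (c₂ q).2 = X₂ q + a₂ q * (Y₂ q - bil_I f (c₂ q)) := by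
      linarith
    rw [h1', h2']
    simp only [hT]
    show (X₁ q + a₁ q * (Y₁ q - bil_I f (c₁ q)) - κ) *
      (X₂ q + a₂ q * (Y₂ q - bil_I f (c₂ q)) - κ) - (X₁ q - κ) * (X₂ q - κ) = _
    ring
  -- expectation of the increment
  have hET : ∀ q, ∑ f, p f * T q f = -(a₁ q * a₂ q * (Y₁ q * Y₂ q)) := by
    intro q
    have h1 : ∀ f, p f * T q f =
        ((X₂ q - κ) * a₁ q * Y₁ q + (X₁ q - κ) * a₂ q * Y₂ q + a₁ q * a₂ q * (Y₁ q * Y₂ q)) * p f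
        - ((X₂ q - κ) * a₁ q + a₁ q * a₂ q * Y₂ q) * (p f * bil_I f (c₁ q))
        - ((X₁ q - κ) * a₂ q + a₁ q * a₂ q * Y₁ q) * (p f * bil_I f (c₂ q))
        + a₁ q * a₂ q * (p f * (bil_I f (c₁ q) * bil_I f (c₂ q))) := by
      intro f
      simp only [hT]
      ring
    simp only [h1, hEI₁₂, mul_zero, add_zero]
    rw [sum_sub_distrib, sum_sub_distrib, ← mul_sum, ← mul_sum, ← mul_sum, hsum, hEI₁, hEI₂]
    ring
  -- the pointwise bound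
  set W : (R → Option Γ) → ℝ := fun f => ∑ q, (2 * Xm ^ 2 * (Y₁ q + bil_I f (c₁ q)) +
    2 * Xm ^ 2 * (Y₂ q + bil_I f (c₂ q)) + 4 * Xm ^ 2 * (Y₁ q * Y₂ q + Y₁ q * bil_I f (c₂ q) +
      bil_I f (c₁ q) * Y₂ q)) with hW
  have hXm0 : 0 ≤ Xm := le_trans zero_le_one hXm
  have hZW : ∀ f, p f ≠ 0 → |∑ q, T q f| ≤ W f := by
    intro f hf
    refine (abs_sum_le_sum_abs _ _).trans (sum_le_sum fun q _ => ?_)
    have hI₁ := bil_I_nonneg f (c₁ q)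
    have hI₂ := bil_I_nonneg f (c₂ q)
    have hI₁₂ : bil_I f (c₁ q) * bil_I f (c₂ q) = 0 := by
      have h := hEI₁₂ q f
      rcases mul_eq_zero.1 h with h | h
      · exact absurd h hf
      · exact h
    have hd₁ : |Y₁ q - bil_I f (c₁ q)| ≤ Y₁ q + bil_I f (c₁ q) := by
      rw [abs_le]
      constructor <;> linarith [hY₁0 q]
    have hd₂ : |Y₂ q - bil_I f (c₂ q)| ≤ Y₂ q + bil_I f (c₂ q) := by
      rw [abs_le]
      constructor <;> linarith [hY₂0 q]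
    have hD₁ : |a₁ q * (Y₁ q - bil_I f (c₁ q))| ≤ 2 * Xm * (Y₁ q + bil_I f (c₁ q)) := by
      rw [abs_mul, abs_of_nonneg (hA₁ q).1]
      exact mul_le_mul (hA₁ q).2 hd₁ (abs_nonneg _) (by positivity)
    have hD₂ : |a₂ q * (Y₂ q - bil_I f (c₂ q))| ≤ 2 * Xm * (Y₂ q + bil_I f (c₂ q)) := by
      rw [abs_mul, abs_of_nonneg (hA₂ q).1]
      exact mul_le_mul (hA₂ q).2 hd₂ (abs_nonneg _) (by positivity)
    have hk₁ : |X₁ q - κ| ≤ Xm := by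
      have h1 := hX (c₁ q).1 (c₁ q).2
      rw [abs_le]
      constructor <;> linarith [h1.1, h1.2, hX₁]
    have hk₂ : |X₂ q - κ| ≤ Xm := by
      have h1 := hX (c₂ q).1 (c₂ q).2
      rw [abs_le]
      constructor <;> linarith [h1.1, h1.2]
    have hs₁ : 0 ≤ Y₁ q + bil_I f (c₁ q) := by linarith [hY₁0 q]
    have hs₂ : 0 ≤ Y₂ q + bil_I f (c₂ q) := by linarith [hY₂0 q]
    have t1 : |(X₂ q - κ) * (a₁ q * (Y₁ q - bil_I f (c₁ q)))| ≤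
        Xm * (2 * Xm * (Y₁ q + bil_I f (c₁ q))) := by
      rw [abs_mul]
      exact mul_le_mul hk₂ hD₁ (abs_nonneg _) hXm0
    have t2 : |(X₁ q - κ) * (a₂ q * (Y₂ q - bil_I f (c₂ q)))| ≤
        Xm * (2 * Xm * (Y₂ q + bil_I f (c₂ q))) := by
      rw [abs_mul]
      exact mul_le_mul hk₁ hD₂ (abs_nonneg _) hXm0
    have t3 : |a₁ q * (Y₁ q - bil_I f (c₁ q)) * (a₂ q * (Y₂ q - bil_I f (c₂ q)))| ≤
        2 * Xm * (Y₁ q + bil_I f (c₁ q)) * (2 * Xm * (Y₂ q + bil_I f (c₂ q))) := by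
      rw [abs_mul]
      exact mul_le_mul hD₁ hD₂ (abs_nonneg _) (by positivity)
    have t4 : 2 * Xm * (Y₁ q + bil_I f (c₁ q)) * (2 * Xm * (Y₂ q + bil_I f (c₂ q))) =
        4 * Xm ^ 2 * (Y₁ q * Y₂ q + Y₁ q * bil_I f (c₂ q) + bil_I f (c₁ q) * Y₂ q) +
          4 * Xm ^ 2 * (bil_I f (c₁ q) * bil_I f (c₂ q)) := by ring
    rw [hI₁₂, mul_zero, add_zero] at t4
    rw [t4] at t3
    have t5 := abs_add_le ((X₂ q - κ) * (a₁ q * (Y₁ q - bil_I f (c₁ q))) +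
      (X₁ q - κ) * (a₂ q * (Y₂ q - bil_I f (c₂ q))))
      (a₁ q * (Y₁ q - bil_I f (c₁ q)) * (a₂ q * (Y₂ q - bil_I f (c₂ q))))
    have t6 := abs_add_le ((X₂ q - κ) * (a₁ q * (Y₁ q - bil_I f (c₁ q))))
      ((X₁ q - κ) * (a₂ q * (Y₂ q - bil_I f (c₂ q))))
    have t7 : Xm * (2 * Xm * (Y₁ q + bil_I f (c₁ q))) =
        2 * Xm ^ 2 * (Y₁ q + bil_I f (c₁ q)) := by ring
    have t8 : Xm * (2 * Xm * (Y₂ q + bil_I f (c₂ q))) =
        2 * Xm ^ 2 * (Y₂ q + bil_I f (c₂ q)) := by ring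
    show |(X₂ q - κ) * (a₁ q * (Y₁ q - bil_I f (c₁ q))) +
      (X₁ q - κ) * (a₂ q * (Y₂ q - bil_I f (c₂ q))) +
      a₁ q * (Y₁ q - bil_I f (c₁ q)) * (a₂ q * (Y₂ q - bil_I f (c₂ q)))| ≤ _
    linarith
  -- sums of the marginals
  have hsumY : ∀ (c : Q → R × Γ), (∀ f, p f ≠ 0 →
      ∑ q, (if f (c q).1 = some (c q).2 then (1 : ℝ) else 0) ≤ 1) →
      ∑ q, y (c q).1 (c q).2 ≤ 1 := by
    intro c hc
    have h1 : ∑ q, y (c q).1 (c q).2 = ∑ f, p f * ∑ q, bil_I f (c q) := by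
      simp only [mul_sum]
      rw [sum_comm]
      exact sum_congr rfl fun q _ => (bil_E hm (c q)).symm
    rw [h1, ← hsum]
    refine sum_le_sum fun f _ => ?_
    by_cases h : p f = 0
    · rw [h, zero_mul]
    · have h2 : ∑ q, bil_I f (c q) ≤ 1 := hc f h
      have h3 : 0 ≤ p f := hp.1 f
      nlinarith
  have hs₁ : ∑ q, Y₁ q ≤ 1 := hsumY c₁ hone1
  have hs₂ : ∑ q, Y₂ q ≤ 1 := hsumY c₂ hone2
  have hXm2 : 0 ≤ Xm ^ 2 := by positivity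
  have hW14 : ∀ f, p f ≠ 0 → W f ≤ 14 * Xm ^ 2 := by
    intro f hf
    have hi₁ : ∑ q, bil_I f (c₁ q) ≤ 1 := hone1 f hf
    have hi₂ : ∑ q, bil_I f (c₂ q) ≤ 1 := hone2 f hf
    have h1 : W f ≤ ∑ q, (2 * Xm ^ 2 * (Y₁ q + bil_I f (c₁ q)) +
        2 * Xm ^ 2 * (Y₂ q + bil_I f (c₂ q)) + 2 * Xm ^ 2 * (Y₁ q + bil_I f (c₂ q) +
          bil_I f (c₁ q))) := by
      refine sum_le_sum fun q _ => ?_
      have hI₁ := bil_I_nonneg f (c₁ q)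
      have hI₂ := bil_I_nonneg f (c₂ q)
      have u1 : Y₁ q * Y₂ q ≤ Y₁ q * (1 / 2) := mul_le_mul_of_nonneg_left (hY₂h q) (hY₁0 q)
      have u2 : Y₁ q * bil_I f (c₂ q) ≤ 1 / 2 * bil_I f (c₂ q) :=
        mul_le_mul_of_nonneg_right (hY₁h q) hI₂
      have u3 : bil_I f (c₁ q) * Y₂ q ≤ bil_I f (c₁ q) * (1 / 2) :=
        mul_le_mul_of_nonneg_left (hY₂h q) hI₁
      have u4 : 4 * Xm ^ 2 * (Y₁ q * Y₂ q + Y₁ q * bil_I f (c₂ q) + bil_I f (c₁ q) * Y₂ q) ≤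
          4 * Xm ^ 2 * (Y₁ q * (1 / 2) + 1 / 2 * bil_I f (c₂ q) + bil_I f (c₁ q) * (1 / 2)) :=
        mul_le_mul_of_nonneg_left (by linarith) (by positivity)
      linarith
    have h2 : ∑ q, (2 * Xm ^ 2 * (Y₁ q + bil_I f (c₁ q)) +
        2 * Xm ^ 2 * (Y₂ q + bil_I f (c₂ q)) + 2 * Xm ^ 2 * (Y₁ q + bil_I f (c₂ q) +
          bil_I f (c₁ q))) = 2 * Xm ^ 2 * (2 * ∑ q, Y₁ q + ∑ q, Y₂ q +
            2 * ∑ q, bil_I f (c₁ q) + 2 * ∑ q, bil_I f (c₂ q)) := by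
      simp only [mul_sum, ← sum_add_distrib]
      exact sum_congr rfl fun q _ => by ring
    rw [h2] at h1
    have h3 : 2 * Xm ^ 2 * (2 * ∑ q, Y₁ q + ∑ q, Y₂ q +
        2 * ∑ q, bil_I f (c₁ q) + 2 * ∑ q, bil_I f (c₂ q)) ≤ 2 * Xm ^ 2 * 7 :=
      mul_le_mul_of_nonneg_left (by linarith) (by positivity)
    linarith
  have hEW : ∑ f, p f * W f ≤ 7 * Xm ^ 2 * ∑ q, (Y₁ q + Y₂ q) := by
    have h1 : ∑ f, p f * W f = ∑ q, (4 * Xm ^ 2 * (Y₁ q + Y₂ q) +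
        12 * Xm ^ 2 * (Y₁ q * Y₂ q)) := by
      simp only [hW, mul_sum]
      rw [sum_comm]
      refine sum_congr rfl fun q _ => ?_
      have h2 : ∀ f, p f * (2 * Xm ^ 2 * (Y₁ q + bil_I f (c₁ q)) +
          2 * Xm ^ 2 * (Y₂ q + bil_I f (c₂ q)) + 4 * Xm ^ 2 * (Y₁ q * Y₂ q +
            Y₁ q * bil_I f (c₂ q) + bil_I f (c₁ q) * Y₂ q)) =
          (2 * Xm ^ 2 * (Y₁ q + Y₂ q) + 4 * Xm ^ 2 * (Y₁ q * Y₂ q)) * p f +
            (2 * Xm ^ 2 + 4 * Xm ^ 2 * Y₂ q) * (p f * bil_I f (c₁ q)) +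
            (2 * Xm ^ 2 + 4 * Xm ^ 2 * Y₁ q) * (p f * bil_I f (c₂ q)) := by
        intro f
        ring
      simp only [h2]
      rw [sum_add_distrib, sum_add_distrib, ← mul_sum, ← mul_sum, ← mul_sum, hsum, hEI₁, hEI₂]
      ring
    rw [h1, mul_sum]
    refine sum_le_sum fun q _ => ?_
    have u1 : Y₁ q * Y₂ q ≤ Y₁ q * (1 / 2) := mul_le_mul_of_nonneg_left (hY₂h q) (hY₁0 q)
    have u2 : Y₁ q * Y₂ q ≤ 1 / 2 * Y₂ q := mul_le_mul_of_nonneg_right (hY₁h q) (hY₂0 q)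
    have u3 : 12 * Xm ^ 2 * (Y₁ q * Y₂ q) ≤ 12 * Xm ^ 2 * ((Y₁ q + Y₂ q) / 4) :=
      mul_le_mul_of_nonneg_left (by linarith) (by positivity)
    linarith
  -- the second moment
  have hE2 : ∑ f, p f * (bil c₁ c₂ κ (post X y f) - bil c₁ c₂ κ X) ^ 2 ≤
      98 * Xm ^ 4 * ∑ q, (Y₁ q + Y₂ q) := by
    have h1 : ∑ f, p f * (bil c₁ c₂ κ (post X y f) - bil c₁ c₂ κ X) ^ 2 ≤
        ∑ f, 14 * Xm ^ 2 * (p f * W f) := by
      refine sum_le_sum fun f _ => ?_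
      by_cases h : p f = 0
      · rw [h]
        simp
      · rw [hZ f]
        have h2 := hZW f h
        have h3 := hW14 f h
        have h4 : 0 ≤ W f := (abs_nonneg _).trans h2
        have h5 : (∑ q, T q f) ^ 2 ≤ 14 * Xm ^ 2 * W f := by
          rw [← sq_abs, sq]
          exact mul_le_mul (h2.trans h3) h2 (abs_nonneg _) (h4.trans h3)
        have h6 : p f * (∑ q, T q f) ^ 2 ≤ p f * (14 * Xm ^ 2 * W f) :=
          mul_le_mul_of_nonneg_left h5 (hp.1 f)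
        linarith
    rw [← mul_sum] at h1
    have h2 : 14 * Xm ^ 2 * ∑ f, p f * W f ≤ 14 * Xm ^ 2 * (7 * Xm ^ 2 * ∑ q, (Y₁ q + Y₂ q)) :=
      mul_le_mul_of_nonneg_left hEW (by positivity)
    have h3 : 14 * Xm ^ 2 * (7 * Xm ^ 2 * ∑ q, (Y₁ q + Y₂ q)) =
      98 * Xm ^ 4 * ∑ q, (Y₁ q + Y₂ q) := by ring
    linarith
  -- the first moment
  have hE1 : lam * ∑ f, p f * (bil c₁ c₂ κ (post X y f) - bil c₁ c₂ κ X) ≤
      max (-lam) 0 * (4 * Xm ^ 2 * ∑ q, Y₁ q * Y₂ q) := by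
    have h1 : ∑ f, p f * (bil c₁ c₂ κ (post X y f) - bil c₁ c₂ κ X) =
        -∑ q, a₁ q * a₂ q * (Y₁ q * Y₂ q) := by
      simp only [hZ, mul_sum]
      rw [sum_comm, ← sum_neg_distrib]
      exact sum_congr rfl fun q _ => hET q
    rw [h1]
    have hB0 : 0 ≤ ∑ q, a₁ q * a₂ q * (Y₁ q * Y₂ q) :=
      sum_nonneg fun q _ => mul_nonneg (mul_nonneg (hA₁ q).1 (hA₂ q).1)
        (mul_nonneg (hY₁0 q) (hY₂0 q))
    have hB1 : ∑ q, a₁ q * a₂ q * (Y₁ q * Y₂ q) ≤ 4 * Xm ^ 2 * ∑ q, Y₁ q * Y₂ q := by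
      rw [mul_sum]
      refine sum_le_sum fun q _ => mul_le_mul_of_nonneg_right ?_ (mul_nonneg (hY₁0 q) (hY₂0 q))
      have h2 : a₁ q * a₂ q ≤ 2 * Xm * (2 * Xm) :=
        mul_le_mul (hA₁ q).2 (hA₂ q).2 (hA₂ q).1 (by positivity)
      linarith
    have h2 : lam * -∑ q, a₁ q * a₂ q * (Y₁ q * Y₂ q) ≤
        max (-lam) 0 * ∑ q, a₁ q * a₂ q * (Y₁ q * Y₂ q) := by
      have h3 : -lam ≤ max (-lam) 0 := le_max_left _ _
      have h4 := mul_le_mul_of_nonneg_right h3 hB0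
      linarith
    exact h2.trans (mul_le_mul_of_nonneg_left hB1 (le_max_right _ _))
  have hfin := hE (R → Option Γ) p (fun f => bil c₁ c₂ κ (post X y f) - bil c₁ c₂ κ X) lam
    (max (-lam) 0 * (4 * Xm ^ 2 * ∑ q, Y₁ q * Y₂ q)) (98 * Xm ^ 4 * ∑ q, (Y₁ q + Y₂ q)) hp
    (fun f hf => by
      show |lam * (bil c₁ c₂ κ (post X y f) - bil c₁ c₂ κ X)| ≤ 1
      rw [hZ f, abs_mul]
      have h1 := (hZW f hf).trans (hW14 f hf)
      exact (mul_le_mul_of_nonneg_left h1 (abs_nonneg lam)).trans hlam) hE1 hE2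
  refine hfin.trans (le_of_eq ?_)
  congr 1
  simp only [hY₁, hY₂]
  ring

end Pool.Agent.Helper21.LQ
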