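import Pool.Agent.Helper21.LQ.Defs

set_option autoImplicit false

/-!
# LQ, module DISC: discrepancy from covariances
-/

namespace Pool.Agent.Helper21.LQ

open Finset

theorem st_DISC : ST_DISC := by
  intro R Γ _ _ _ _ N L X D Xm δc δ₄ hD hδ₄ hδc hN hX hcov hfin Z hZ G hG
  set u : R → Γ → ℝ := fun r γ => if γ ∈ L r then X r γ - 1 else 0 with hu
  have hXm : 0 ≤ Xm ^ 2 := sq_nonneg _
  have hu2 : ∀ r γ, u r γ * u r γ ≤ Xm ^ 2 := by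
    intro r γ
    simp only [hu]
    split_ifs with h
    · have h1 := hX r γ
      have h2 : 0 ≤ |X r γ - 1| := abs_nonneg _
      have h3 : (X r γ - 1) * (X r γ - 1) = |X r γ - 1| * |X r γ - 1| := by
        rw [abs_mul_abs_self]
      rw [h3]
      nlinarith
    · simpa using hXm
  have hpair : ∀ γ γ', ∑ r ∈ N, u r γ * u r γ' ≤
      (if γ = γ' then Xm ^ 2 * D else 0) + δc * D := by
    intro γ γ'
    by_cases h : γ = γ'
    · subst h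
      rw [if_pos rfl]
      have h1 : ∑ r ∈ N, u r γ * u r γ ≤ ∑ _r ∈ N, Xm ^ 2 := sum_le_sum fun r _ => hu2 r γ
      rw [sum_const, nsmul_eq_mul] at h1
      have h2 : (N.card : ℝ) * Xm ^ 2 ≤ D * Xm ^ 2 := mul_le_mul_of_nonneg_right hN hXm
      have h3 : 0 ≤ δc * D := mul_nonneg hδc hD.le
      linarith
    · rw [if_neg h, zero_add]
      refine le_trans (le_of_eq ?_) (hcov γ γ' h)
      unfold cov
      rw [sum_filter]
      refine sum_congr rfl fun r _ => ?_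
      simp only [hu]
      by_cases h1 : γ ∈ L r
      · by_cases h2 : γ' ∈ L r
        · rw [if_pos h1, if_pos h2, if_pos ⟨h1, h2⟩]
        · rw [if_neg h2, mul_zero, if_neg fun h3 => h2 h3.2]
      · rw [if_neg h1, zero_mul, if_neg fun h3 => h1 h3.1]
  have hsq : ∑ r ∈ N, (∑ γ ∈ G, u r γ) ^ 2 ≤ 2 * D * (Xm ^ 2 * D) + 2 * D * (2 * D) * (δc * D) := by
    have h1 : ∑ r ∈ N, (∑ γ ∈ G, u r γ) ^ 2 =
        ∑ γ ∈ G, ∑ γ' ∈ G, ∑ r ∈ N, u r γ * u r γ' := by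
      simp only [sq, sum_mul_sum]
      rw [sum_comm]
      exact sum_congr rfl fun γ _ => sum_comm
    rw [h1]
    have h2 : ∑ γ ∈ G, ∑ γ' ∈ G, ∑ r ∈ N, u r γ * u r γ' ≤
        ∑ γ ∈ G, ∑ γ' ∈ G, ((if γ = γ' then Xm ^ 2 * D else 0) + δc * D) :=
      sum_le_sum fun γ _ => sum_le_sum fun γ' _ => hpair γ γ'
    have h3 : ∑ γ ∈ G, ∑ γ' ∈ G, ((if γ = γ' then Xm ^ 2 * D else 0) + δc * D) =
        G.card * (Xm ^ 2 * D) + G.card * G.card * (δc * D) := by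
      have h4 : ∀ γ ∈ G, ∑ γ' ∈ G, ((if γ = γ' then Xm ^ 2 * D else 0) + δc * D) =
          Xm ^ 2 * D + G.card * (δc * D) := by
        intro γ hγ
        rw [sum_add_distrib, sum_ite_eq, if_pos hγ, sum_const, nsmul_eq_mul]
      rw [sum_congr rfl h4, sum_const, nsmul_eq_mul]
      ring
    rw [h3] at h2
    have hg0 : (0 : ℝ) ≤ G.card := Nat.cast_nonneg _
    have h5 : (G.card : ℝ) * (Xm ^ 2 * D) ≤ 2 * D * (Xm ^ 2 * D) :=
      mul_le_mul_of_nonneg_right hG (mul_nonneg hXm hD.le)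
    have h6 : (G.card : ℝ) * G.card ≤ 2 * D * (2 * D) :=
      mul_le_mul hG hG hg0 (by linarith)
    have h7 : (G.card : ℝ) * G.card * (δc * D) ≤ 2 * D * (2 * D) * (δc * D) :=
      mul_le_mul_of_nonneg_right h6 (mul_nonneg hδc hD.le)
    linarith
  have hcs : (∑ r ∈ Z, ∑ γ ∈ G, u r γ) ^ 2 ≤
      Z.card * ∑ r ∈ Z, (∑ γ ∈ G, u r γ) ^ 2 := sq_sum_le_card_mul_sum_sq
  have hZN : ∑ r ∈ Z, (∑ γ ∈ G, u r γ) ^ 2 ≤ ∑ r ∈ N, (∑ γ ∈ G, u r γ) ^ 2 :=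
    sum_le_sum_of_subset_of_nonneg hZ fun r _ _ => sq_nonneg _
  have hZc : (Z.card : ℝ) ≤ D := le_trans (by exact_mod_cast card_le_card hZ) hN
  have hZ0 : (0 : ℝ) ≤ Z.card := Nat.cast_nonneg _
  have hB0 : 0 ≤ ∑ r ∈ Z, (∑ γ ∈ G, u r γ) ^ 2 := sum_nonneg fun r _ => sq_nonneg _
  have h1 : (∑ r ∈ Z, ∑ γ ∈ G, u r γ) ^ 2 ≤
      D * (2 * D * (Xm ^ 2 * D) + 2 * D * (2 * D) * (δc * D)) :=
    hcs.trans (mul_le_mul hZc (hZN.trans hsq) hB0 hD.le)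
  have h2 : D * (2 * D * (Xm ^ 2 * D) + 2 * D * (2 * D) * (δc * D)) =
      D ^ 4 * (2 * Xm ^ 2 / D + 4 * δc) := by
    field_simp
    ring
  have h3 : D ^ 4 * (2 * Xm ^ 2 / D + 4 * δc) ≤ D ^ 4 * δ₄ ^ 2 :=
    mul_le_mul_of_nonneg_left hfin (by positivity)
  have h4 : D ^ 4 * δ₄ ^ 2 = (δ₄ * D ^ 2) ^ 2 := by ring
  have h5 : (∑ r ∈ Z, ∑ γ ∈ G, u r γ) ^ 2 ≤ (δ₄ * D ^ 2) ^ 2 := by
    rw [← h4]
    exact h1.trans (h2.le.trans h3)
  exact abs_le_of_sq_le_sq h5 (mul_nonneg hδ₄ (by positivity))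

end Pool.Agent.Helper21.LQ
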